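import Mathlib
import Pool.Agent.H31.HyperRamsey

set_option autoImplicit false

namespace Pool.Agent.Results.MP_9d843c_co.Super

open Finset

/-- The graph `J_±(n,4,0)`. -/
def J (n : ℕ) : SimpleGraph {v : Fin n → ℤ //
    (∀ i, v i = -1 ∨ v i = 0 ∨ v i = 1) ∧ (univ.filter fun i => v i ≠ 0).card = 4} where
  Adj u v := u ≠ v ∧ ∑ i, u.1 i * v.1 i = 0
  symm := ⟨fun _ _ h => ⟨h.1.symm, (Finset.sum_congr rfl fun _ _ => mul_comm _ _).trans h.2⟩⟩
  loopless := ⟨fun _ h => h.1 rfl⟩

lemma ramsey4 (C : Type) [Fintype C] [Nonempty C] : ∃ R, ∀ χ : (Fin 4 → Fin R) → C,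
    ∃ t : Fin 6 → Fin R, StrictMono t ∧ ∃ col, ∀ i : Fin 4 → Fin 6, StrictMono i →
      χ (t ∘ i) = col := by
  classical
  obtain ⟨R, hR⟩ := Pool.Agent.H31.HyperRamsey.ramsey C 4 6
  refine ⟨R, fun χ => ?_⟩
  obtain ⟨T, _, hT, col, h⟩ := hR (Fin R) univ
    (fun P => if h : P.card = 4 then χ (P.orderEmbOfFin h) else Classical.arbitrary C) (by simp)
  refine ⟨T.orderEmbOfFin hT, (T.orderEmbOfFin hT).strictMono, col, fun i hi => ?_⟩
  have hs : StrictMono (T.orderEmbOfFin hT ∘ i) := (T.orderEmbOfFin hT).strictMono.comp hi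
  have hc : (univ.image (T.orderEmbOfFin hT ∘ i)).card = 4 := by
    rw [card_image_of_injective _ hs.injective]; simp
  have := h (univ.image (T.orderEmbOfFin hT ∘ i)) (by
    intro x hx
    obtain ⟨p, _, rfl⟩ := mem_image.1 hx
    exact orderEmbOfFin_mem T hT _) hc
  simp only [dif_pos hc] at this
  rw [← this]
  congr 1
  exact orderEmbOfFin_unique hc (fun p => mem_image_of_mem _ (mem_univ p)) hs

lemma ext_count {I K X : Type} [Fintype I] [Fintype K] [Fintype X] [DecidableEq I] [DecidableEq K]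
    [DecidableEq X] (e : I → K) (he : Function.Injective e) (B : Finset (I → X)) :
    (univ.filter fun f : K → X => f ∘ e ∈ B).card * Fintype.card X ^ Fintype.card I ≤
      B.card * Fintype.card X ^ Fintype.card K := by
  rw [← Fintype.card_fun, ← Fintype.card_fun, ← card_univ, ← card_univ, ← card_product,
    ← card_product]
  refine card_le_card_of_injOn (fun p => (p.1 ∘ e, Function.extend e p.2 p.1)) ?_ ?_
  · intro p hp
    simp only [coe_product, coe_filter, mem_univ, true_and, Set.mem_prod, Set.mem_setOf_eq,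
      coe_univ, Set.mem_univ, and_true, mem_coe] at hp ⊢
    exact hp
  · rintro ⟨f, g⟩ _ ⟨f', g'⟩ _ h
    simp only [Prod.mk.injEq] at h ⊢
    constructor
    · funext k
      by_cases hk : ∃ i, e i = k
      · obtain ⟨i, rfl⟩ := hk
        exact congrFun h.1 i
      · have := congrFun h.2 k
        rwa [Function.extend_apply' _ _ _ hk, Function.extend_apply' _ _ _ hk] at this
    · funext i
      have := congrFun h.2 (e i)
      rwa [he.extend_apply, he.extend_apply] at this

lemma cnt2 {n : ℕ} (hn : 0 < n) (p q : Fin 4) (hpq : p ≠ q) (x y : Fin n) :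
    (univ.filter fun a : Fin 4 → Fin n => a p = x ∧ a q = y).card ≤ n ^ 2 := by
  have := ext_count (X := Fin n) ![p, q] (by
    intro i j h; fin_cases i <;> fin_cases j <;> simp_all) {![x, y]}
  simp only [Fintype.card_fin, card_singleton, one_mul] at this
  have e : (univ.filter fun a : Fin 4 → Fin n => a p = x ∧ a q = y) =
      univ.filter fun f : Fin 4 → Fin n => f ∘ ![p, q] ∈ ({![x, y]} : Finset (Fin 2 → Fin n)) := by
    ext a
    simp only [mem_filter, mem_univ, true_and, mem_singleton]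
    constructor
    · rintro ⟨rfl, rfl⟩
      funext i; fin_cases i <;> rfl
    · intro h
      exact ⟨congrFun h 0, congrFun h 1⟩
  rw [e]
  apply Nat.le_of_mul_le_mul_right _ (pow_pos hn 2)
  calc _ ≤ n ^ 4 := this
    _ = _ := by ring

lemma comb (C : ℕ) : ∃ n0, ∀ n, n0 ≤ n → ∀ κ : (Fin 4 → Fin n) → Fin (C * n),
    (∀ a b, StrictMono a → StrictMono b → (∀ p q, a p ≠ b q) → κ a ≠ κ b) →
    ∃ y : Fin 6 → Fin n, StrictMono y ∧ ∃ p : Fin 4, ∀ i j : Fin 4 → Fin 6, StrictMono i →
      StrictMono j → i p = j p → κ (y ∘ i) = κ (y ∘ j) := by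
  classical
  obtain ⟨R, hR⟩ := ramsey4 (Fin 4 × Fin (2 * C + 1))
  have hR0 : 0 < R := by
    obtain ⟨t, _⟩ := hR fun _ => (0, 0)
    exact (t 0).pos
  refine ⟨2 * R * (R ^ 4 * (256 * C * (4 * R) ^ 3) + 1), fun n hn κ hκ => ?_⟩
  set N := n / (2 * R) with hN
  have hN1 : R ^ 4 * (256 * C * (4 * R) ^ 3) + 1 ≤ N :=
    (Nat.le_div_iff_mul_le (by omega)).2 (by rw [mul_comm]; exact hn)
  have hN2 : N * (2 * R) ≤ n := Nat.div_mul_le_self _ _
  have hN3 : n < 2 * R * (N + 1) := Nat.lt_mul_div_succ _ (by omega)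
  have hN0 : 0 < N := by omega
  have hn0 : 0 < n := by nlinarith
  have hN4 : n ≤ 4 * R * N := by nlinarith
  let Star : Fin (C * n) → Prop := fun k => ∃ x, ∀ a, StrictMono a → κ a = k → ∃ p, a p = x
  have hctr : ∀ k, ∃ x : Fin n, Star k → ∀ a, StrictMono a → κ a = k → ∃ p, a p = x := by
    intro k
    by_cases h : Star k
    · obtain ⟨x, hx⟩ := h; exact ⟨x, fun _ => hx⟩
    · exact ⟨⟨0, hn0⟩, fun h' => absurd h' h⟩
  choose ctr hctr using hctr
  -- bad tuples
  set Bd := univ.filter fun a : Fin 4 → Fin n => StrictMono a ∧ ¬ Star (κ a) with hBd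
  have hBdc : Bd.card ≤ 256 * C * n ^ 3 := by
    have h1 : ∀ k, (Bd.filter fun a => κ a = k).card ≤ 256 * n ^ 2 := by
      intro k
      rcases (Bd.filter fun a => κ a = k).eq_empty_or_nonempty with e | ⟨A, hA⟩
      · simp [e]
      simp only [hBd, mem_filter, mem_univ, true_and] at hA
      have hns : ∀ x, ∃ a, StrictMono a ∧ κ a = k ∧ ∀ p, a p ≠ x := by
        intro x
        by_contra hc
        push Not at hc
        exact hA.1.2 (hA.2 ▸ ⟨x, hc⟩)
      choose B hB using hns
      have hsub : (Bd.filter fun a => κ a = k) ⊆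
          (univ : Finset (Fin 4 × Fin 4 × Fin 4 × Fin 4)).biUnion fun w =>
            univ.filter fun a : Fin 4 → Fin n => w.1 ≠ w.2.1 ∧
              (a w.1 = A w.2.2.1 ∧ a w.2.1 = B (A w.2.2.1) w.2.2.2) := by
        intro a ha
        simp only [hBd, mem_filter, mem_univ, true_and, mem_biUnion] at ha ⊢
        have e1 : ∃ p p0, a p = A p0 := by
          by_contra hc; push Not at hc
          exact hκ a A ha.1.1 hA.1.1 hc (ha.2.trans hA.2.symm)
        obtain ⟨p, p0, e1⟩ := e1
        have e2 : ∃ q q0, a q = B (A p0) q0 := by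
          by_contra hc; push Not at hc
          exact hκ a _ ha.1.1 (hB _).1 hc (ha.2.trans (hB _).2.1.symm)
        obtain ⟨q, q0, e2⟩ := e2
        refine ⟨(p, q, p0, q0), fun e => ?_, e1, e2⟩
        simp only at e
        exact (hB (A p0)).2.2 q0 (by rw [← e2, ← e, e1])
      refine (card_le_card hsub).trans (card_biUnion_le.trans ?_)
      refine (sum_le_card_nsmul _ _ (n ^ 2) fun w _ => ?_).trans (by simp)
      by_cases hw : w.1 = w.2.1
      · simp [hw]
      · refine le_trans (card_le_card ?_) (cnt2 hn0 _ _ hw (A w.2.2.1) (B (A w.2.2.1) w.2.2.2))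
        intro a ha
        simp only [mem_filter, mem_univ, true_and] at ha ⊢
        exact ha.2
    have := card_le_mul_card_image_of_maps_to (s := Bd) (t := univ) (f := κ)
      (fun _ _ => mem_univ _) (256 * n ^ 2) (fun k _ => h1 k)
    simp only [card_univ, Fintype.card_fin] at this
    calc _ ≤ _ := this
      _ = _ := by ring
  -- good points
  set X := univ.filter fun x : Fin n => (univ.filter fun k => ctr k = x).card ≤ 2 * C with hX
  have hXc : n ≤ 2 * X.card := by
    have h1 : ∑ x : Fin n, (univ.filter fun k => ctr k = x).card = C * n := by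
      rw [← card_eq_sum_card_fiberwise (fun _ _ => mem_univ _)]; simp
    have h2 : (univ \ X).card * (2 * C + 1) ≤ ∑ x ∈ univ \ X, (univ.filter fun k => ctr k = x).card := by
      rw [← smul_eq_mul]
      refine card_nsmul_le_sum _ _ _ fun x hx => ?_
      simp only [hX, mem_sdiff, mem_filter, mem_univ, true_and, not_le] at hx
      exact hx
    have h3 := sum_le_sum_of_subset (f := fun x => (univ.filter fun k => ctr k = x).card)
      (subset_univ (univ \ X))
    have h4 := card_sdiff_add_card_eq_card (subset_univ X)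
    simp only [card_univ, Fintype.card_fin] at h4
    nlinarith
  have hg : ∀ x : Fin n, ∃ g : Fin (C * n) → Fin (2 * C + 1), x ∈ X →
      ∀ k k', ctr k = x → ctr k' = x → g k = g k' → k = k' := by
    intro x
    by_cases hx : x ∈ X
    · obtain ⟨f⟩ : Nonempty ((univ.filter fun k => ctr k = x) ↪ Fin (2 * C + 1)) :=
        Function.Embedding.nonempty_of_card_le (by
          have := (mem_filter.1 hx).2
          rw [Fintype.card_coe, Fintype.card_fin]; omega)
      refine ⟨fun k => if h : ctr k = x then f ⟨k, by simpa using h⟩ else 0, fun _ k k' h h' e => ?_⟩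
      simp only [dif_pos h, dif_pos h'] at e
      exact congrArg Subtype.val (f.injective e)
    · exact ⟨fun _ => 0, fun h => absurd h hx⟩
  choose g hg using hg
  have hlt : ∀ (i : Fin R) (u : Fin N), i.val * N + u.val < X.card := by
    intro i u
    have h1 : (i.val + 1) * N ≤ R * N := Nat.mul_le_mul_right _ i.isLt
    have := u.isLt
    nlinarith
  let pt : Fin R → Fin N → Fin n := fun i u => X.orderEmbOfFin rfl ⟨i.val * N + u.val, hlt i u⟩
  have pt_mem : ∀ i u, pt i u ∈ X := fun i u => orderEmbOfFin_mem X rfl _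
  have pt_lt : ∀ i j u v, i < j → pt i u < pt j v := by
    intro i j u v h
    apply (X.orderEmbOfFin rfl).strictMono
    show i.val * N + u.val < j.val * N + v.val
    have h1 : (i.val + 1) * N ≤ j.val * N := Nat.mul_le_mul_right _ h
    have := u.isLt
    nlinarith
  have pt_inj : ∀ i u v, pt i u = pt i v → u = v := by
    intro i u v h
    have := (X.orderEmbOfFin rfl).injective h
    simp only [Fin.mk.injEq] at this
    ext; omega
  have hf : ∃ f : Fin R → Fin N, ∀ i : Fin 4 → Fin R, StrictMono i →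
      (fun p => pt (i p) (f (i p))) ∉ Bd := by
    by_contra hc
    push Not at hc
    have hsub : (univ : Finset (Fin R → Fin N)) ⊆
        (univ.filter fun i : Fin 4 → Fin R => StrictMono i).biUnion fun i =>
          univ.filter fun f : Fin R → Fin N => f ∘ i ∈
            univ.filter fun w : Fin 4 → Fin N => (fun p => pt (i p) (w p)) ∈ Bd := by
      intro f _
      obtain ⟨i, hi, h⟩ := hc f
      exact mem_biUnion.2 ⟨i, mem_filter.2 ⟨mem_univ _, hi⟩,
        mem_filter.2 ⟨mem_univ _, mem_filter.2 ⟨mem_univ _, h⟩⟩⟩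
    have h1 := (card_le_card hsub).trans card_biUnion_le
    have h2 := Nat.mul_le_mul_right (N ^ 4) h1
    rw [sum_mul] at h2
    have h3 := h2.trans (sum_le_card_nsmul _ _ (Bd.card * N ^ R) fun i hi => by
      have := ext_count (X := Fin N) i (mem_filter.1 hi).2.injective
        (univ.filter fun w : Fin 4 → Fin N => (fun p => pt (i p) (w p)) ∈ Bd)
      simp only [Fintype.card_fin] at this
      refine this.trans (Nat.mul_le_mul_right _ ?_)
      refine card_le_card_of_injOn (fun w p => pt (i p) (w p)) (fun w hw => ?_) ?_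
      · exact (mem_filter.1 hw).2
      · intro w _ w' _ h
        funext p
        exact pt_inj _ _ _ (congrFun h p))
    have h4 : (univ.filter fun i : Fin 4 → Fin R => StrictMono i).card ≤ R ^ 4 := by
      simpa using card_le_univ (univ.filter fun i : Fin 4 → Fin R => StrictMono i)
    simp only [card_univ, Fintype.card_fun, Fintype.card_fin, smul_eq_mul] at h3
    have h5 : Bd.card ≤ 256 * C * (4 * R * N) ^ 3 :=
      hBdc.trans (Nat.mul_le_mul_left _ (Nat.pow_le_pow_left hN4 3))
    have h6 : N ^ R * N ^ 4 ≤ R ^ 4 * (256 * C * (4 * R * N) ^ 3 * N ^ R) :=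
      h3.trans (Nat.mul_le_mul h4 (Nat.mul_le_mul_right _ h5))
    have h7 : (N ^ R * N ^ 3) * N ≤ (N ^ R * N ^ 3) * (R ^ 4 * (256 * C * (4 * R) ^ 3)) := by
      calc _ = N ^ R * N ^ 4 := by ring
        _ ≤ _ := h6
        _ = _ := by ring
    have := Nat.le_of_mul_le_mul_left h7 (by positivity)
    omega
  obtain ⟨f, hf⟩ := hf
  let z : Fin R → Fin n := fun i => pt i (f i)
  have hz : StrictMono z := fun i j h => pt_lt _ _ _ _ h
  have hpos : ∀ i : Fin 4 → Fin R, ∃ p, StrictMono i → z (i p) = ctr (κ (z ∘ i)) := by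
    intro i
    by_cases hi : StrictMono i
    · have h1 := hf i hi
      simp only [hBd, mem_filter, mem_univ, true_and, not_and, not_not] at h1
      obtain ⟨p, hp⟩ := hctr _ (h1 (hz.comp hi)) (z ∘ i) (hz.comp hi) rfl
      exact ⟨p, fun _ => hp⟩
    · exact ⟨0, fun h => absurd h hi⟩
  choose pos hpos using hpos
  obtain ⟨t, ht, ⟨p, c⟩, hcol⟩ := hR fun i => (pos i, g (ctr (κ (z ∘ i))) (κ (z ∘ i)))
  refine ⟨z ∘ t, hz.comp ht, p, fun i j hi hj e => ?_⟩
  have h1 := hcol i hi
  have h2 := hcol j hj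
  simp only [Prod.mk.injEq] at h1 h2
  have h3 := hpos _ (ht.comp hi)
  have h4 := hpos _ (ht.comp hj)
  rw [h1.1] at h3
  rw [h2.1] at h4
  have h5 : ctr (κ (z ∘ t ∘ j)) = ctr (κ (z ∘ t ∘ i)) := by
    rw [← h3, ← h4]; simp [e]
  refine hg (ctr (κ (z ∘ t ∘ i))) (h3 ▸ pt_mem _ _) _ _ rfl h5 ?_
  have := h2.2
  rw [h5] at this
  exact h1.2.trans this.symm

def vec {n : ℕ} (a : Fin 4 → Fin n) : Fin n → ℤ := fun i =>
  if i = a 0 then 1 else if i = a 1 then -1 else if i = a 2 then 1 else if i = a 3 then -1 else 0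

lemma vec_mem {n : ℕ} {a : Fin 4 → Fin n} (ha : StrictMono a) :
    (∀ i, vec a i = -1 ∨ vec a i = 0 ∨ vec a i = 1) ∧
      (univ.filter fun i => vec a i ≠ 0).card = 4 := by
  constructor
  · intro i; unfold vec; split_ifs <;> simp
  · have : (univ.filter fun i => vec a i ≠ 0) = univ.image a := by
      ext i
      simp only [mem_filter, mem_univ, true_and, mem_image, vec]
      constructor
      · intro h
        split_ifs at h with h1 h2 h3 h4
        exacts [⟨_, h1.symm⟩, ⟨_, h2.symm⟩, ⟨_, h3.symm⟩, ⟨_, h4.symm⟩, absurd rfl h]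
      · rintro ⟨p, rfl⟩
        split_ifs with h1 h2 h3 h4 <;> try simp
        fin_cases p <;> simp_all
    rw [this, card_image_of_injective _ ha.injective]; simp

lemma vec_dot {n : ℕ} {a : Fin 4 → Fin n} (ha : StrictMono a) (w : Fin n → ℤ) :
    ∑ i, vec a i * w i = w (a 0) - w (a 1) + w (a 2) - w (a 3) := by
  have hi := ha.injective
  have : ∀ i, vec a i * w i = (if a 0 = i then w i else 0) - (if a 1 = i then w i else 0) +
      (if a 2 = i then w i else 0) - (if a 3 = i then w i else 0) := by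
    intro i
    unfold vec
    by_cases h0 : i = a 0
    · subst h0; simp [hi.eq_iff]
    by_cases h1 : i = a 1
    · subst h1; simp [hi.eq_iff]
    by_cases h2 : i = a 2
    · subst h2; simp [hi.eq_iff]
    by_cases h3 : i = a 3
    · subst h3; simp [hi.eq_iff]
    simp [h0, h1, h2, h3, Ne.symm h0, Ne.symm h1, Ne.symm h2, Ne.symm h3]
  simp only [this, sum_sub_distrib, sum_add_distrib, sum_ite_eq, mem_univ, if_true]

lemma adj_of {n : ℕ} {a b : Fin 4 → Fin n} (ha : StrictMono a) (hb : StrictMono b)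
    (h : vec b (a 0) - vec b (a 1) + vec b (a 2) - vec b (a 3) = 0) :
    (J n).Adj ⟨vec a, vec_mem ha⟩ ⟨vec b, vec_mem hb⟩ := by
  refine ⟨fun e => ?_, (vec_dot ha _).trans h⟩
  have e' : vec a = vec b := congrArg Subtype.val e
  rw [← e'] at h
  simp [vec, ha.injective.eq_iff] at h

theorem result (C : ℕ) : ∃ n0 : ℕ, ∀ n, n0 ≤ n → ((C * n : ℕ) : ℕ∞) < (J n).chromaticNumber := by
  classical
  obtain ⟨n0, h⟩ := comb C
  refine ⟨n0 + 4, fun n hn => ?_⟩
  by_contra hc
  obtain ⟨c⟩ := SimpleGraph.chromaticNumber_le_iff_colorable.1 (not_lt.1 hc)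
  have hs : StrictMono (Fin.castLE (show 4 ≤ n by omega)) := Fin.strictMono_castLE _
  obtain ⟨y, hy, p, hp⟩ := h n (by omega)
    (fun a => if h : StrictMono a then c ⟨vec a, vec_mem h⟩ else c ⟨vec _, vec_mem hs⟩) (by
      intro a b ha hb hab
      simp only [dif_pos ha, dif_pos hb]
      exact c.valid (adj_of ha hb (by simp [vec, hab])))
  have key : ∀ i j : Fin 4 → Fin 6, StrictMono i → StrictMono j → i p = j p →
      vec j (i 0) - vec j (i 1) + vec j (i 2) - vec j (i 3) = 0 → False := by
    intro i j hi hj e h0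
    have := hp i j hi hj e
    simp only [dif_pos (hy.comp hi), dif_pos (hy.comp hj)] at this
    refine c.valid (adj_of (hy.comp hi) (hy.comp hj) ?_) this
    simpa only [vec, Function.comp, hy.injective.eq_iff] using h0
  fin_cases p
  · exact key ![0, 1, 2, 3] ![0, 2, 4, 5] (by decide) (by decide) rfl (by decide)
  · exact key ![0, 2, 3, 4] ![1, 2, 4, 5] (by decide) (by decide) rfl (by decide)
  · exact key ![0, 1, 3, 4] ![1, 2, 3, 5] (by decide) (by decide) rfl (by decide)
  · exact key ![0, 1, 3, 5] ![1, 2, 4, 5] (by decide) (by decide) rfl (by decide)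

end Pool.Agent.Results.MP_9d843c_co.Super
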